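import Mathlib
import Pool.Agent.Helper35.YG.QE

set_option autoImplicit false

open Matrix
open Pool.Agent.Helper35.YG (uu vv)

namespace Pool.Agent.Helper97.YG

section Gen

theorem sl2_mul_apply {R : Type*} [CommRing R] (A B : SpecialLinearGroup (Fin 2) R)
    (i j : Fin 2) : (A * B) i j = A i 0 * B 0 j + A i 1 * B 1 j := by
  change (A.1 * B.1) i j = _
  rw [Matrix.mul_apply, Fin.sum_univ_two]

theorem uu_00 {R : Type*} [CommRing R] (x : R) : (uu x) 0 0 = 1 := rfl
theorem uu_01 {R : Type*} [CommRing R] (x : R) : (uu x) 0 1 = x := rfl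
theorem uu_10 {R : Type*} [CommRing R] (x : R) : (uu x) 1 0 = 0 := rfl
theorem uu_11 {R : Type*} [CommRing R] (x : R) : (uu x) 1 1 = 1 := rfl
theorem vv_00 {R : Type*} [CommRing R] (x : R) : (vv x) 0 0 = 1 := rfl
theorem vv_01 {R : Type*} [CommRing R] (x : R) : (vv x) 0 1 = 0 := rfl
theorem vv_10 {R : Type*} [CommRing R] (x : R) : (vv x) 1 0 = x := rfl
theorem vv_11 {R : Type*} [CommRing R] (x : R) : (vv x) 1 1 = 1 := rfl

variable {K : Type*} [Field K]

theorem sl2_det (M : SpecialLinearGroup (Fin 2) K) : M 0 0 * M 1 1 - M 0 1 * M 1 0 = 1 := by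
  have hdet := M.det_coe
  rwa [Matrix.det_fin_two] at hdet

theorem sl2_ext {R : Type*} [CommRing R] {A B : SpecialLinearGroup (Fin 2) R}
    (h00 : A 0 0 = B 0 0) (h01 : A 0 1 = B 0 1) (h10 : A 1 0 = B 1 0) (h11 : A 1 1 = B 1 1) :
    A = B := by
  ext i j
  fin_cases i <;> fin_cases j <;> assumption

theorem sl2_eq_of_ne (M : SpecialLinearGroup (Fin 2) K) (h : M 1 0 ≠ 0) :
    M = uu ((M 0 0 - 1) / M 1 0) * vv (M 1 0) * uu ((M 1 1 - 1) / M 1 0) := by
  have hdet := sl2_det M
  apply sl2_ext <;> simp only [sl2_mul_apply, uu_00, uu_01, uu_10, uu_11, vv_00, vv_01, vv_10,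
    vv_11] <;> field_simp
  · ring
  · linear_combination -hdet
  · ring
  · ring

/-- `SL_2` of a field is generated by elementary matrices. -/
theorem sl2_induction (S : Submonoid (SpecialLinearGroup (Fin 2) K))
    (hu : ∀ x, uu x ∈ S) (hv : ∀ x, vv x ∈ S) (M : SpecialLinearGroup (Fin 2) K) : M ∈ S := by
  have key : ∀ M : SpecialLinearGroup (Fin 2) K, M 1 0 ≠ 0 → M ∈ S := by
    intro M h
    rw [sl2_eq_of_ne M h]
    exact S.mul_mem (S.mul_mem (hu _) (hv _)) (hu _)
  by_cases h : M 1 0 = 0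
  · have h0 : M 0 0 ≠ 0 := by
      intro h0
      have hdet := sl2_det M
      rw [h, h0] at hdet
      simp at hdet
    have h1 : M = vv (-1) * (vv 1 * M) := by
      apply sl2_ext <;> simp only [sl2_mul_apply, vv_00, vv_01, vv_10, vv_11] <;> ring
    rw [h1]
    refine S.mul_mem (hv _) (key _ ?_)
    rw [sl2_mul_apply, vv_10, vv_11, h, one_mul, mul_zero, add_zero]
    exact h0
  · exact key M h

end Gen

section FieldCase

variable {K T : Type*} [Field K] [Finite K] [CharP K 2] [Group T]

/-- The Weyl element. -/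
def wel (U V : K → T) (u : K) : T := U u * V u⁻¹ * U u

theorem stein_field (U V : K → T) (hU : ∀ x y, U (x + y) = U x * U y)
    (hV : ∀ x y, V (x + y) = V x * V y)
    (hw : ∀ u x : K, u ≠ 0 → wel U V u * U x * wel U V u = V (u⁻¹ * u⁻¹ * x))
    (hH : ∀ u v : K, u ≠ 0 → v ≠ 0 →
      Commute (wel U V u * wel U V 1) (wel U V v * wel U V 1)) :
    ∃ φ : SpecialLinearGroup (Fin 2) K →* T, (∀ x, φ (uu x) = U x) ∧ (∀ x, φ (vv x) = V x) := by
  classical
  have h2 : ∀ x : K, x + x = 0 := fun x => CharTwo.add_self_eq_zero x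
  have U0 : U 0 = 1 := by
    have := hU 0 0
    rw [add_zero] at this
    exact (mul_eq_left.mp this.symm)
  have V0 : V 0 = 1 := by
    have := hV 0 0
    rw [add_zero] at this
    exact (mul_eq_left.mp this.symm)
  have UU : ∀ x, U x * U x = 1 := fun x => by rw [← hU, h2, U0]
  have VV : ∀ x, V x * V x = 1 := fun x => by rw [← hV, h2, V0]
  have UC : ∀ x y, U x * U y = U y * U x := fun x y => by rw [← hU, ← hU, add_comm]
  have one_ne : (1 : K) ≠ 0 := one_ne_zero
  set w := wel U V with hwdef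
  have wdef : ∀ u, w u = U u * V u⁻¹ * U u := fun u => rfl
  have ww : ∀ u, w u * w u = 1 := by
    intro u
    rw [wdef]
    calc U u * V u⁻¹ * U u * (U u * V u⁻¹ * U u)
        = U u * V u⁻¹ * (U u * U u) * V u⁻¹ * U u := by group
      _ = U u * (V u⁻¹ * V u⁻¹) * U u := by rw [UU]; group
      _ = 1 := by rw [VV, mul_one, UU]
  have winv : ∀ u, (w u)⁻¹ = w u := fun u => inv_eq_of_mul_eq_one_left (ww u)
  have wV : ∀ u x, u ≠ 0 → w u * V x * w u = U (u * u * x) := by
    intro u x hu
    have h1 := hw u (u * u * x) hu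
    have h3 : u⁻¹ * u⁻¹ * (u * u * x) = x := by field_simp
    rw [h3] at h1
    rw [← h1]
    calc w u * (w u * U (u * u * x) * w u) * w u
        = (w u * w u) * U (u * u * x) * (w u * w u) := by group
      _ = U (u * u * x) := by rw [ww, one_mul, mul_one]
  -- torus elements
  set H : K → T := fun u => w u * w 1 with hHdef
  have Hdef : ∀ u, H u = w u * w 1 := fun u => rfl
  have H1 : H 1 = 1 := ww 1
  have Hinv : ∀ u, (H u)⁻¹ = w 1 * w u := by
    intro u
    rw [Hdef, _root_.mul_inv_rev, winv, winv]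
  have HU : ∀ u x, u ≠ 0 → H u * U x = U (u * u * x) * H u := by
    intro u x hu
    have h1 := hw 1 x one_ne
    rw [inv_one, one_mul, one_mul] at h1
    have h3 := wV u x hu
    rw [← h3, ← h1, Hdef]
    calc w u * w 1 * U x = w u * (w 1 * U x * w 1) * (w u * w u) * w 1 := by
          rw [ww]
          calc w u * w 1 * U x = w u * w 1 * U x * 1 := by group
            _ = w u * w 1 * U x * (w 1 * w 1) := by rw [ww]
            _ = _ := by group
      _ = w u * (w 1 * U x * w 1) * w u * (w u * w 1) := by group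
  have HVx : ∀ u x, u ≠ 0 → H u * V x = V (u⁻¹ * u⁻¹ * x) * H u := by
    intro u x hu
    have h1 := wV 1 x one_ne
    rw [one_mul, one_mul] at h1
    have h3 := hw u x hu
    rw [← h3, ← h1, Hdef]
    calc w u * w 1 * V x = w u * (w 1 * V x * w 1) * (w u * w u) * w 1 := by
          rw [ww]
          calc w u * w 1 * V x = w u * w 1 * V x * 1 := by group
            _ = w u * w 1 * V x * (w 1 * w 1) := by rw [ww]
            _ = _ := by group
      _ = w u * (w 1 * V x * w 1) * w u * (w u * w 1) := by group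
  have Hw : ∀ u v, u ≠ 0 → v ≠ 0 → H u * w v = w (u * u * v) * H u := by
    intro u v hu hv
    have h3 : (u * u * v)⁻¹ = u⁻¹ * u⁻¹ * v⁻¹ := by
      rw [mul_inv, mul_inv]
    rw [wdef, wdef, h3]
    calc H u * (U v * V v⁻¹ * U v) = (H u * U v) * V v⁻¹ * U v := by group
      _ = U (u * u * v) * (H u * V v⁻¹) * U v := by rw [HU u v hu]; group
      _ = U (u * u * v) * V (u⁻¹ * u⁻¹ * v⁻¹) * (H u * U v) := by rw [HVx u _ hu]; group
      _ = _ := by rw [HU u v hu]; group
  have Hsq : ∀ u v, u ≠ 0 → v ≠ 0 → H (u * u * v) = H (u * u) * H v := by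
    intro u v hu hv
    have h1 : H u * H v = w (u * u * v) * w (u * u) * H u := by
      have e1 := Hw u v hu hv
      have e2 := Hw u 1 hu one_ne
      rw [mul_one] at e2
      calc H u * H v = H u * w v * w 1 := by rw [Hdef v]; group
        _ = w (u * u * v) * (H u * w 1) := by rw [e1]; group
        _ = _ := by rw [e2]; group
    have h3 : H u * H v = H v * H u := hH u v hu hv
    rw [h3] at h1
    have h4 : H v = w (u * u * v) * w (u * u) := mul_right_cancel h1
    have huu : u * u ≠ 0 := mul_ne_zero hu hu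
    have h5 : H v * H (u * u) = H (u * u * v) := by
      rw [h4, Hdef (u * u), Hdef (u * u * v)]
      calc w (u * u * v) * w (u * u) * (w (u * u) * w 1)
          = w (u * u * v) * (w (u * u) * w (u * u)) * w 1 := by group
        _ = _ := by rw [ww, mul_one]
    rw [← h5]
    exact hH v (u * u) hv huu
  have Hmul : ∀ a v, a ≠ 0 → v ≠ 0 → H (a * v) = H a * H v := by
    intro a v ha hv
    obtain ⟨u, hu⟩ : ∃ u : K, u * u = a := by
      obtain ⟨u, hu⟩ := FiniteField.isSquare_of_char_two (ringChar.eq_iff.mpr ‹CharP K 2›) a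
      exact ⟨u, hu.symm⟩
    have hu0 : u ≠ 0 := by
      rintro rfl
      apply ha
      rw [← hu, zero_mul]
    rw [← hu]
    exact Hsq u v hu0 hv
  have Hinv' : ∀ a, a ≠ 0 → H a⁻¹ = (H a)⁻¹ := by
    intro a ha
    have := Hmul a⁻¹ a (inv_ne_zero ha) ha
    rw [inv_mul_cancel₀ ha, H1] at this
    exact eq_inv_of_mul_eq_one_left this.symm
  have Hw1 : ∀ u, H u * w 1 = w u := by
    intro u
    rw [Hdef, mul_assoc, ww, mul_one]
  -- `w u * H v = w (u / v)`
  have wH : ∀ u v, u ≠ 0 → v ≠ 0 → w u * H v = w (u * v⁻¹) := by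
    intro u v hu hv
    have e1 : w 1 * H v = (H v)⁻¹ * w 1 := by
      rw [Hinv, Hdef]
      calc w 1 * (w v * w 1) = w 1 * w v * w 1 := by group
        _ = _ := rfl
    calc w u * H v = H u * (w 1 * H v) := by rw [← Hw1 u]; group
      _ = H u * (H v)⁻¹ * w 1 := by rw [e1]; group
      _ = H (u * v⁻¹) * w 1 := by rw [Hmul u v⁻¹ hu (inv_ne_zero hv), Hinv' v hv]
      _ = _ := Hw1 _
  have VwU : ∀ u, u ≠ 0 → V u = U u⁻¹ * w u⁻¹ * U u⁻¹ := by
    intro u hu
    rw [wdef, inv_inv]
    calc V u = (U u⁻¹ * U u⁻¹) * V u * (U u⁻¹ * U u⁻¹) := by rw [UU, one_mul, mul_one]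
      _ = _ := by group
  -- the map
  let Φ : SpecialLinearGroup (Fin 2) K → T := fun M =>
    if M 1 0 = 0 then H (M 0 0) * U (M 0 1 * (M 0 0)⁻¹)
    else U (M 0 0 * (M 1 0)⁻¹) * w (M 1 0)⁻¹ * U (M 1 1 * (M 1 0)⁻¹)
  have Φ0 : ∀ M : SpecialLinearGroup (Fin 2) K, M 1 0 = 0 →
      Φ M = H (M 0 0) * U (M 0 1 * (M 0 0)⁻¹) := fun M h => if_pos h
  have Φ1 : ∀ M : SpecialLinearGroup (Fin 2) K, M 1 0 ≠ 0 →
      Φ M = U (M 0 0 * (M 1 0)⁻¹) * w (M 1 0)⁻¹ * U (M 1 1 * (M 1 0)⁻¹) := fun M h => if_neg h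
  have h20 : (2 : K) = 0 := CharTwo.two_eq_zero
  let J : SpecialLinearGroup (Fin 2) K := Pool.Agent.Helper35.YG.JJ h20
  have J00 : J 0 0 = 0 := rfl
  have J01 : J 0 1 = 1 := rfl
  have J10 : J 1 0 = 1 := rfl
  have J11 : J 1 1 = 0 := rfl
  have Φone : Φ 1 = 1 := by
    rw [Φ0 1 rfl]
    change H 1 * U (0 * (1 : K)⁻¹) = 1
    rw [H1, zero_mul, U0, one_mul]
  have Φu : ∀ s M, Φ (uu s * M) = U s * Φ M := by
    intro s M
    have e00 : (uu s * M) 0 0 = M 0 0 + s * M 1 0 := by
      rw [sl2_mul_apply, uu_00, uu_01, one_mul]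
    have e01 : (uu s * M) 0 1 = M 0 1 + s * M 1 1 := by
      rw [sl2_mul_apply, uu_00, uu_01, one_mul]
    have e10 : (uu s * M) 1 0 = M 1 0 := by
      rw [sl2_mul_apply, uu_10, uu_11, one_mul, zero_mul, zero_add]
    have e11 : (uu s * M) 1 1 = M 1 1 := by
      rw [sl2_mul_apply, uu_10, uu_11, one_mul, zero_mul, zero_add]
    by_cases h : M 1 0 = 0
    · have hdet := sl2_det M
      rw [h, mul_zero, sub_zero] at hdet
      have h00 : M 0 0 ≠ 0 := left_ne_zero_of_mul_eq_one hdet
      rw [Φ0 M h, Φ0 _ (e10.trans h), e00, e01, h, mul_zero, add_zero]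
      have h11 : M 1 1 = (M 0 0)⁻¹ := eq_inv_of_mul_eq_one_right hdet
      have e1 := HU (M 0 0) (s * M 1 1 * (M 0 0)⁻¹) h00
      have e2 : M 0 0 * M 0 0 * (s * M 1 1 * (M 0 0)⁻¹) = s := by
        rw [h11]; field_simp
      rw [e2] at e1
      rw [add_mul, hU, UC]
      calc H (M 0 0) * (U (s * M 1 1 * (M 0 0)⁻¹) * U (M 0 1 * (M 0 0)⁻¹))
          = (H (M 0 0) * U (s * M 1 1 * (M 0 0)⁻¹)) * U (M 0 1 * (M 0 0)⁻¹) := by group
        _ = _ := by rw [e1]; group
    · rw [Φ1 M h, Φ1 _ (by rw [e10]; exact h), e00, e10, e11]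
      have e2 : (M 0 0 + s * M 1 0) * (M 1 0)⁻¹ = s + M 0 0 * (M 1 0)⁻¹ := by
        field_simp
        ring
      rw [e2, hU]
      group
  have ΦJ : ∀ M, Φ (J * M) = w 1 * Φ M := by
    intro M
    have e00 : (J * M) 0 0 = M 1 0 := by
      rw [sl2_mul_apply, J00, J01, one_mul, zero_mul, zero_add]
    have e01 : (J * M) 0 1 = M 1 1 := by
      rw [sl2_mul_apply, J00, J01, one_mul, zero_mul, zero_add]
    have e10 : (J * M) 1 0 = M 0 0 := by
      rw [sl2_mul_apply, J10, J11, one_mul, zero_mul, add_zero]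
    have e11 : (J * M) 1 1 = M 0 1 := by
      rw [sl2_mul_apply, J10, J11, one_mul, zero_mul, add_zero]
    have hdet := sl2_det M
    by_cases h : M 1 0 = 0
    · rw [h, mul_zero, sub_zero] at hdet
      have h00 : M 0 0 ≠ 0 := left_ne_zero_of_mul_eq_one hdet
      rw [Φ0 M h, Φ1 _ (by rw [e10]; exact h00), e00, e10, e11, h, zero_mul, U0, one_mul]
      have e1 := wH 1 (M 0 0) one_ne h00
      rw [one_mul] at e1
      rw [← e1]
      group
    · by_cases h0 : M 0 0 = 0
      · rw [Φ1 M h, Φ0 _ (e10.trans h0), e00, e01, h0, zero_mul, U0, one_mul]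
        have e1 : w 1 * w (M 1 0)⁻¹ = H (M 1 0) := by
          rw [← Hinv, Hinv' _ h, inv_inv]
        rw [← e1]
        group
      · rw [Φ1 M h, Φ1 _ (by rw [e10]; exact h0), e00, e10, e11]
        have a1 : w 1 * w (M 1 0)⁻¹ = H (M 1 0) := by
          rw [← Hinv, Hinv' _ h, inv_inv]
        have a2 : w 1 * U (M 0 0 * (M 1 0)⁻¹) * w 1 = V (M 0 0 * (M 1 0)⁻¹) := by
          have := hw 1 (M 0 0 * (M 1 0)⁻¹) one_ne
          rwa [inv_one, one_mul, one_mul] at this
        have hq : M 0 0 * (M 1 0)⁻¹ ≠ 0 := mul_ne_zero h0 (inv_ne_zero h)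
        have a3 := VwU _ hq
        have a4 : (M 0 0 * (M 1 0)⁻¹)⁻¹ = M 1 0 * (M 0 0)⁻¹ := by
          rw [mul_inv, inv_inv, mul_comm]
        rw [a4] at a3
        have a5 : U (M 1 0 * (M 0 0)⁻¹) * H (M 1 0) =
            H (M 1 0) * U ((M 1 0)⁻¹ * (M 0 0)⁻¹) := by
          have := HU (M 1 0) ((M 1 0)⁻¹ * (M 0 0)⁻¹) h
          rw [this]
          congr 2
          field_simp
        have a6 : w (M 1 0 * (M 0 0)⁻¹) * H (M 1 0) = w (M 0 0)⁻¹ := by
          rw [wH _ _ (mul_ne_zero h (inv_ne_zero h0)) h]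
          congr 1
          field_simp
        have a7 : M 0 1 * (M 0 0)⁻¹ = (M 1 0)⁻¹ * (M 0 0)⁻¹ + M 1 1 * (M 1 0)⁻¹ := by
          have : M 0 1 * M 1 0 = 1 + M 0 0 * M 1 1 := by
            linear_combination (-1 : K) * hdet + (-1 : K) * h20
          field_simp
          linear_combination this
        symm
        calc w 1 * (U (M 0 0 * (M 1 0)⁻¹) * w (M 1 0)⁻¹ * U (M 1 1 * (M 1 0)⁻¹))
            = (w 1 * U (M 0 0 * (M 1 0)⁻¹) * w 1) * (w 1 * w (M 1 0)⁻¹) *
                U (M 1 1 * (M 1 0)⁻¹) := by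
              calc w 1 * (U (M 0 0 * (M 1 0)⁻¹) * w (M 1 0)⁻¹ * U (M 1 1 * (M 1 0)⁻¹))
                  = w 1 * U (M 0 0 * (M 1 0)⁻¹) * 1 * w (M 1 0)⁻¹ * U (M 1 1 * (M 1 0)⁻¹) := by
                    group
                _ = w 1 * U (M 0 0 * (M 1 0)⁻¹) * (w 1 * w 1) * w (M 1 0)⁻¹ *
                      U (M 1 1 * (M 1 0)⁻¹) := by rw [ww]
                _ = _ := by group
          _ = U (M 1 0 * (M 0 0)⁻¹) * w (M 1 0 * (M 0 0)⁻¹) *
                (U (M 1 0 * (M 0 0)⁻¹) * H (M 1 0)) * U (M 1 1 * (M 1 0)⁻¹) := by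
              rw [a2, a1, a3]; group
          _ = U (M 1 0 * (M 0 0)⁻¹) * (w (M 1 0 * (M 0 0)⁻¹) * H (M 1 0)) *
                (U ((M 1 0)⁻¹ * (M 0 0)⁻¹) * U (M 1 1 * (M 1 0)⁻¹)) := by
              rw [a5]; group
          _ = _ := by rw [a6, ← hU, a7]
  -- `Φ` is multiplicative
  let S : Submonoid (SpecialLinearGroup (Fin 2) K) :=
    { carrier := {g | ∀ M, Φ (g * M) = Φ g * Φ M}
      mul_mem' := by
        intro a b ha hb M
        rw [mul_assoc, ha, hb, ha, mul_assoc]
      one_mem' := by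
        intro M
        rw [one_mul, Φone, one_mul] }
  have hSu : ∀ x, uu x ∈ S := by
    intro x M
    have e := Φu x 1
    rw [mul_one, Φone, mul_one] at e
    rw [Φu, e]
  have ΦJ1 : Φ J = w 1 := by
    have e := ΦJ 1
    rw [mul_one, Φone, mul_one] at e
    exact e
  have hSJ : J ∈ S := by
    intro M
    rw [ΦJ, ΦJ1]
  have hvJ : ∀ x, vv x = J * uu x * J := by
    intro x
    apply sl2_ext <;> simp only [sl2_mul_apply, uu_00, uu_01, uu_10, uu_11, vv_00, vv_01, vv_10,
      vv_11, J00, J01, J10, J11] <;> ring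
  have hSv : ∀ x, vv x ∈ S := by
    intro x
    rw [hvJ]
    exact S.mul_mem (S.mul_mem hSJ (hSu x)) hSJ
  have hS : ∀ g, g ∈ S := sl2_induction S hSu hSv
  refine ⟨⟨⟨Φ, Φone⟩, fun a b => hS a b⟩, ?_, ?_⟩
  · intro x
    have e := Φu x 1
    rw [mul_one, Φone, mul_one] at e
    exact e
  · intro x
    change Φ (vv x) = V x
    rw [hvJ, mul_assoc, ΦJ, Φu, ΦJ1]
    have := hw 1 x one_ne
    rw [inv_one, one_mul, one_mul] at this
    rw [← this, mul_assoc]

end FieldCase

section PiCase

variable {ι : Type*} [Fintype ι] [DecidableEq ι] {K : ι → Type*} [∀ i, Field (K i)]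
  [∀ i, Finite (K i)] [∀ i, CharP (K i) 2] {T : Type*} [Group T]

theorem stein_pi (U V : (∀ i, K i) → T) (hU : ∀ x y, U (x + y) = U x * U y)
    (hV : ∀ x y, V (x + y) = V x * V y)
    (hw : ∀ (u : (∀ i, K i)ˣ) (x : ∀ i, K i),
      (U u * V ↑u⁻¹ * U u) * U x * (U u * V ↑u⁻¹ * U u) = V (↑u⁻¹ * ↑u⁻¹ * x))
    (horth : ∀ x y : (∀ i, K i), x * y = 0 → U x * V y = V y * U x)
    (hH : ∀ (u : (∀ i, K i)ˣ) (k l : ℕ),
      Commute (U ↑(u^k) * V ↑(u^k)⁻¹ * U ↑(u^k) * (U 1 * V 1 * U 1))
        (U ↑(u^l) * V ↑(u^l)⁻¹ * U ↑(u^l) * (U 1 * V 1 * U 1))) :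
    ∃ φ : SpecialLinearGroup (Fin 2) (∀ i, K i) →* T,
      (∀ x, φ (uu x) = U x) ∧ (∀ x, φ (vv x) = V x) := by
  have h2 : ∀ x : (∀ i, K i), x + x = 0 := by
    intro x
    funext i
    exact CharTwo.add_self_eq_zero (x i)
  have U0 : U 0 = 1 := by
    have := hU 0 0
    rw [add_zero] at this
    exact (mul_eq_left.mp this.symm)
  have V0 : V 0 = 1 := by
    have := hV 0 0
    rw [add_zero] at this
    exact (mul_eq_left.mp this.symm)
  have UU : ∀ x, U x * U x = 1 := fun x => by rw [← hU, h2, U0]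
  have VV : ∀ x, V x * V x = 1 := fun x => by rw [← hV, h2, V0]
  have UC : ∀ x y, U x * U y = U y * U x := fun x y => by rw [← hU, ← hU, add_comm]
  have VC : ∀ x y, V x * V y = V y * V x := fun x y => by rw [← hV, ← hV, add_comm]
  -- the element `e'` complementary to the `i`-th idempotent
  let e' : ∀ i, (∀ j, K j) := fun i => 1 + Pi.single i 1
  have he'i : ∀ i, e' i i = 0 := by
    intro i
    simp only [e', Pi.add_apply, Pi.one_apply, Pi.single_eq_same]
    exact CharTwo.add_self_eq_zero (1 : K i)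
  have he'j : ∀ i j, j ≠ i → e' i j = 1 := by
    intro i j hj
    simp only [e', Pi.add_apply, Pi.one_apply, Pi.single_eq_of_ne hj, add_zero]
  have hse : ∀ i (x : K i), Pi.single i x * e' i = 0 := by
    intro i x
    funext j
    by_cases hj : j = i
    · subst hj
      simp only [Pi.mul_apply, he'i, mul_zero, Pi.zero_apply]
    · simp only [Pi.mul_apply, Pi.single_eq_of_ne hj, zero_mul, Pi.zero_apply]
  have hes : ∀ i (x : K i), e' i * Pi.single i x = 0 := by
    intro i x
    rw [mul_comm, hse]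
  -- field case for each `i`
  have hsadd : ∀ i (x y : K i), (Pi.single i (x + y) : ∀ j, K j) =
      Pi.single i x + Pi.single i y := fun i x y => Pi.single_add i x y
  -- units
  let tl : ∀ i, (K i)ˣ →* (∀ j, K j)ˣ := fun i =>
    { toFun := fun u =>
        { val := Pi.single i (u : K i) + e' i
          inv := Pi.single i ((u⁻¹ : (K i)ˣ) : K i) + e' i
          val_inv := by
            funext j
            by_cases hj : j = i
            · subst hj
              simp only [Pi.mul_apply, Pi.add_apply, Pi.single_eq_same, he'i, add_zero,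
                Units.mul_inv, Pi.one_apply]
            · simp only [Pi.mul_apply, Pi.add_apply, Pi.single_eq_of_ne hj, he'j i j hj,
                zero_add, mul_one, Pi.one_apply]
          inv_val := by
            funext j
            by_cases hj : j = i
            · subst hj
              simp only [Pi.mul_apply, Pi.add_apply, Pi.single_eq_same, he'i, add_zero,
                Units.inv_mul, Pi.one_apply]
            · simp only [Pi.mul_apply, Pi.add_apply, Pi.single_eq_of_ne hj, he'j i j hj,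
                zero_add, mul_one, Pi.one_apply] }
      map_one' := by
        apply Units.ext
        funext j
        by_cases hj : j = i
        · subst hj
          simp only [Pi.add_apply, Pi.single_eq_same, he'i, add_zero, Units.val_one,
            Pi.one_apply]
        · simp only [Pi.add_apply, Pi.single_eq_of_ne hj, he'j i j hj, zero_add, Units.val_one,
            Pi.one_apply]
      map_mul' := by
        intro u v
        apply Units.ext
        funext j
        by_cases hj : j = i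
        · subst hj
          simp only [Units.val_mul, Pi.mul_apply, Pi.add_apply, Pi.single_eq_same, he'i,
            add_zero]
        · simp only [Units.val_mul, Pi.mul_apply, Pi.add_apply, Pi.single_eq_of_ne hj,
            he'j i j hj, zero_add, mul_one] }
  have tlv : ∀ i (u : (K i)ˣ), ((tl i u : (∀ j, K j)ˣ) : ∀ j, K j) =
      Pi.single i (u : K i) + e' i := fun i u => rfl
  have tli : ∀ i (u : (K i)ˣ), (((tl i u)⁻¹ : (∀ j, K j)ˣ) : ∀ j, K j) =
      Pi.single i ((u⁻¹ : (K i)ˣ) : K i) + e' i := fun i u => rfl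
  let Ui : ∀ i, K i → T := fun i x => U (Pi.single i x)
  let Vi : ∀ i, K i → T := fun i x => V (Pi.single i x)
  have hUe : ∀ i x, Commute (Ui i x) (V (e' i)) := fun i x => horth _ _ (hse i x)
  have hVe : ∀ i x, Commute (U (e' i)) (Vi i x) := fun i x => horth _ _ (hes i x)
  have hUe2 : ∀ i x, Commute (Ui i x) (U (e' i)) := fun i x => UC _ _
  have hVe2 : ∀ i x, Commute (V (e' i)) (Vi i x) := fun i x => VC _ _
  let w' : ∀ _ : ι, T := fun i => U (e' i) * V (e' i) * U (e' i)
  have w'w' : ∀ i, w' i * w' i = 1 := by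
    intro i
    calc U (e' i) * V (e' i) * U (e' i) * (U (e' i) * V (e' i) * U (e' i))
        = U (e' i) * V (e' i) * (U (e' i) * U (e' i)) * V (e' i) * U (e' i) := by group
      _ = U (e' i) * (V (e' i) * V (e' i)) * U (e' i) := by rw [UU]; group
      _ = 1 := by rw [VV, mul_one, UU]
  have hUw' : ∀ i x, Commute (Ui i x) (w' i) := fun i x =>
    ((hUe2 i x).mul_right (hUe i x)).mul_right (hUe2 i x)
  have hVw' : ∀ i x, Commute (Vi i x) (w' i) := fun i x =>
    (((hVe i x).symm).mul_right (hVe2 i x).symm).mul_right (hVe i x).symm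
  have hweli : ∀ i (u : (K i)ˣ), U ↑(tl i u) * V ↑(tl i u)⁻¹ * U ↑(tl i u) =
      wel (Ui i) (Vi i) (u : K i) * w' i := by
    intro i u
    rw [tlv, tli, hU, hV, Units.val_inv_eq_inv_val]
    change Ui i u * U (e' i) * (Vi i (u : K i)⁻¹ * V (e' i)) * (Ui i u * U (e' i)) =
      Ui i u * Vi i (u : K i)⁻¹ * Ui i u * (U (e' i) * V (e' i) * U (e' i))
    have c1 := (hVe i (u : K i)⁻¹).eq
    have c2 := (hUe i (u : K i)).eq
    have c3 := (hUe2 i (u : K i)).eq
    calc Ui i u * U (e' i) * (Vi i (u : K i)⁻¹ * V (e' i)) * (Ui i u * U (e' i))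
        = Ui i u * (U (e' i) * Vi i (u : K i)⁻¹) * V (e' i) * Ui i u * U (e' i) := by group
      _ = Ui i u * Vi i (u : K i)⁻¹ * U (e' i) * (V (e' i) * Ui i u) * U (e' i) := by
          rw [c1]; group
      _ = Ui i u * Vi i (u : K i)⁻¹ * (U (e' i) * Ui i u) * V (e' i) * U (e' i) := by
          rw [← c2]; group
      _ = _ := by rw [← c3]; group
  have hwel1 : ∀ i, U 1 * V 1 * U 1 = wel (Ui i) (Vi i) 1 * w' i := by
    intro i
    have := hweli i 1
    rw [map_one, inv_one, Units.val_one, Units.val_one] at this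
    exact this
  have hwelw' : ∀ i (u : K i), Commute (wel (Ui i) (Vi i) u) (w' i) := fun i u =>
    ((hUw' i u).mul_left (hVw' i u⁻¹)).mul_left (hUw' i u)
  have hHi : ∀ i (u : (K i)ˣ),
      U ↑(tl i u) * V ↑(tl i u)⁻¹ * U ↑(tl i u) * (U 1 * V 1 * U 1) =
      wel (Ui i) (Vi i) (u : K i) * wel (Ui i) (Vi i) 1 := by
    intro i u
    rw [hweli, hwel1 i]
    calc wel (Ui i) (Vi i) (u : K i) * w' i * (wel (Ui i) (Vi i) 1 * w' i)
        = wel (Ui i) (Vi i) (u : K i) * (w' i * wel (Ui i) (Vi i) 1) * w' i := by group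
      _ = wel (Ui i) (Vi i) (u : K i) * wel (Ui i) (Vi i) 1 * (w' i * w' i) := by
          rw [← (hwelw' i 1).eq]; group
      _ = _ := by rw [w'w', mul_one]
  have hex : ∀ i, ∃ φ : SpecialLinearGroup (Fin 2) (K i) →* T,
      (∀ x, φ (uu x) = Ui i x) ∧ (∀ x, φ (vv x) = Vi i x) := by
    intro i
    apply stein_field
    · intro x y
      change U _ = U _ * U _
      rw [hsadd, hU]
    · intro x y
      change V _ = V _ * V _
      rw [hsadd, hV]
    · intro u x hu
      have h := hw (tl i (Units.mk0 u hu)) (Pi.single i x)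
      rw [hweli, tli] at h
      have e1 : (Pi.single i (((Units.mk0 u hu)⁻¹ : (K i)ˣ) : K i) + e' i) *
          (Pi.single i (((Units.mk0 u hu)⁻¹ : (K i)ˣ) : K i) + e' i) * Pi.single i x =
          (Pi.single i (u⁻¹ * u⁻¹ * x) : ∀ j, K j) := by
        funext j
        by_cases hj : j = i
        · subst hj
          simp only [Pi.mul_apply, Pi.add_apply, Pi.single_eq_same, he'i, add_zero,
            Units.val_inv_eq_inv_val, Units.val_mk0]
        · simp only [Pi.mul_apply, Pi.single_eq_of_ne hj, mul_zero]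
      rw [e1] at h
      change _ = Vi i _ at h
      rw [← h]
      change wel (Ui i) (Vi i) u * Ui i x * wel (Ui i) (Vi i) u =
        wel (Ui i) (Vi i) u * w' i * Ui i x * (wel (Ui i) (Vi i) u * w' i)
      symm
      calc wel (Ui i) (Vi i) u * w' i * Ui i x * (wel (Ui i) (Vi i) u * w' i)
          = wel (Ui i) (Vi i) u * (w' i * Ui i x) * wel (Ui i) (Vi i) u * w' i := by group
        _ = wel (Ui i) (Vi i) u * Ui i x * (w' i * wel (Ui i) (Vi i) u) * w' i := by
            rw [← (hUw' i x).eq]; group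
        _ = wel (Ui i) (Vi i) u * Ui i x * wel (Ui i) (Vi i) u * (w' i * w' i) := by
            rw [← (hwelw' i u).eq]; group
        _ = _ := by rw [w'w', mul_one]
    · intro u v hu hv
      obtain ⟨θ, hθ⟩ := IsCyclic.exists_generator (α := (K i)ˣ)
      obtain ⟨k, hk⟩ := (mem_powers_iff_mem_zpowers).mpr (hθ (Units.mk0 u hu))
      obtain ⟨l, hl⟩ := (mem_powers_iff_mem_zpowers).mpr (hθ (Units.mk0 v hv))
      have h := hH (tl i θ) k l
      have ek : (tl i θ) ^ k = tl i (Units.mk0 u hu) := by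
        rw [← map_pow]
        exact congrArg _ hk
      have el : (tl i θ) ^ l = tl i (Units.mk0 v hv) := by
        rw [← map_pow]
        exact congrArg _ hl
      rw [ek, el, hHi, hHi] at h
      exact h
  choose φ hφu hφv using hex
  have hcomm : Pairwise fun i j => ∀ (x : SpecialLinearGroup (Fin 2) (K i))
      (y : SpecialLinearGroup (Fin 2) (K j)), Commute (φ i x) (φ j y) := by
    intro i j hij
    have hzero : ∀ (x : K i) (y : K j),
        (Pi.single i x * Pi.single j y : ∀ k, K k) = 0 := by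
      intro x y
      funext k
      by_cases hk : k = i
      · subst hk
        simp only [Pi.mul_apply, Pi.single_eq_of_ne hij, mul_zero, Pi.zero_apply]
      · simp only [Pi.mul_apply, Pi.single_eq_of_ne hk, zero_mul, Pi.zero_apply]
    have hzero' : ∀ (x : K i) (y : K j),
        (Pi.single j y * Pi.single i x : ∀ k, K k) = 0 := fun x y => by
      rw [mul_comm, hzero]
    -- fix a generator on the right
    have step : ∀ (t : T), (∀ x, Commute (Ui i x) t) → (∀ x, Commute (Vi i x) t) →
        ∀ x, Commute (φ i x) t := by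
      intro t h1 h2 x
      let S : Submonoid (SpecialLinearGroup (Fin 2) (K i)) :=
        { carrier := {g | Commute (φ i g) t}
          mul_mem' := by
            intro a b ha hb
            change Commute (φ i (a * b)) t
            rw [map_mul]
            exact Commute.mul_left ha hb
          one_mem' := by
            change Commute (φ i 1) t
            rw [map_one]
            exact Commute.one_left t }
      exact sl2_induction S (fun x => by change Commute _ _; rw [hφu]; exact h1 x)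
        (fun x => by change Commute _ _; rw [hφv]; exact h2 x) x
    intro x y
    let S : Submonoid (SpecialLinearGroup (Fin 2) (K j)) :=
      { carrier := {g | Commute (φ i x) (φ j g)}
        mul_mem' := by
          intro a b ha hb
          change Commute _ (φ j (a * b))
          rw [map_mul]
          exact Commute.mul_right ha hb
        one_mem' := by
          change Commute _ (φ j 1)
          rw [map_one]
          exact Commute.one_right _ }
    refine sl2_induction S (fun y => ?_) (fun y => ?_) y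
    · change Commute _ _
      rw [hφu]
      exact step _ (fun x => UC _ _) (fun x => (horth _ _ (hzero' x y)).symm) x
    · change Commute _ _
      rw [hφv]
      exact step _ (fun x => horth _ _ (hzero x y)) (fun x => VC _ _) x
  let ev : ∀ i, SpecialLinearGroup (Fin 2) (∀ j, K j) →* SpecialLinearGroup (Fin 2) (K i) :=
    fun i => SpecialLinearGroup.map (Pi.evalRingHom K i)
  have evu : ∀ i (x : ∀ j, K j), ev i (uu x) = uu (x i) := by
    intro i x
    apply sl2_ext
    · exact map_one (Pi.evalRingHom K i)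
    · rfl
    · exact map_zero (Pi.evalRingHom K i)
    · exact map_one (Pi.evalRingHom K i)
  have evv : ∀ i (x : ∀ j, K j), ev i (vv x) = vv (x i) := by
    intro i x
    apply sl2_ext
    · exact map_one (Pi.evalRingHom K i)
    · exact map_zero (Pi.evalRingHom K i)
    · rfl
    · exact map_one (Pi.evalRingHom K i)
  let Φ : SpecialLinearGroup (Fin 2) (∀ i, K i) →* T :=
    (MonoidHom.noncommPiCoprod φ hcomm).comp (MonoidHom.pi ev)
  have prodU : ∀ (W : (∀ i, K i) → T) (hW : ∀ x y, W (x + y) = W x * W y)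
      (x : ∀ i, K i) (s : Finset ι)
      (hp : (s : Set ι).Pairwise (Function.onFun Commute fun i => W (Pi.single i (x i)))),
      s.noncommProd (fun i => W (Pi.single i (x i))) hp = W (∑ i ∈ s, Pi.single i (x i)) := by
    intro W hW x s
    have W0 : W 0 = 1 := by
      have := hW 0 0
      rw [add_zero] at this
      exact (mul_eq_left.mp this.symm)
    induction s using Finset.induction_on with
    | empty =>
      intro hp
      rw [Finset.noncommProd_empty, Finset.sum_empty, W0]
    | insert a s ha ih =>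
      intro hp
      rw [Finset.noncommProd_insert_of_notMem _ _ _ _ ha, ih, Finset.sum_insert ha, hW]
  refine ⟨Φ, ?_, ?_⟩
  · intro x
    change Finset.univ.noncommProd (fun i => φ i (ev i (uu x)))
      (fun i _ j _ hij => hcomm hij (ev i (uu x)) (ev j (uu x))) = U x
    have e := prodU U hU x Finset.univ (fun _ _ _ _ _ => UC _ _)
    rw [Finset.univ_sum_single] at e
    rw [← e]
    apply Finset.noncommProd_congr rfl
    intro i _
    rw [evu, hφu]
  · intro x
    change Finset.univ.noncommProd (fun i => φ i (ev i (vv x)))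
      (fun i _ j _ hij => hcomm hij (ev i (vv x)) (ev j (vv x))) = V x
    have e := prodU V hV x Finset.univ (fun _ _ _ _ _ => VC _ _)
    rw [Finset.univ_sum_single] at e
    rw [← e]
    apply Finset.noncommProd_congr rfl
    intro i _
    rw [evv, hφv]

end PiCase

/-- Steinberg-type presentation of `SL_2(E)`, `E` a finite reduced ring of characteristic two. -/
theorem stein_ring {E T : Type*} [CommRing E] [Finite E] [IsReduced E] [CharP E 2] [Group T]
    (U V : E → T) (hU : ∀ x y, U (x + y) = U x * U y) (hV : ∀ x y, V (x + y) = V x * V y)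
    (hw : ∀ (u : Eˣ) (x : E), (U u * V ↑u⁻¹ * U u) * U x * (U u * V ↑u⁻¹ * U u) =
      V (↑u⁻¹ * ↑u⁻¹ * x))
    (horth : ∀ x y : E, x * y = 0 → U x * V y = V y * U x)
    (hH : ∀ (u : Eˣ) (k l : ℕ),
      Commute (U ↑(u^k) * V ↑(u^k)⁻¹ * U ↑(u^k) * (U 1 * V 1 * U 1))
        (U ↑(u^l) * V ↑(u^l)⁻¹ * U ↑(u^l) * (U 1 * V 1 * U 1))) :
    ∃ φ : Matrix.SpecialLinearGroup (Fin 2) E →* T,
      (∀ x, φ (uu x) = U x) ∧ (∀ x, φ (vv x) = V x) := by
  classical
  have h20 : (2 : E) = 0 := CharTwo.two_eq_zero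
  letI : ∀ I : MaximalSpectrum E, Field (E ⧸ I.asIdeal) := fun I => Ideal.Quotient.field I.asIdeal
  haveI : ∀ I : MaximalSpectrum E, Finite (E ⧸ I.asIdeal) := fun I =>
    Finite.of_surjective _ Ideal.Quotient.mk_surjective
  haveI : ∀ I : MaximalSpectrum E, CharP (E ⧸ I.asIdeal) 2 := fun I => by
    have h : (2 : E ⧸ I.asIdeal) = 0 := by
      have := congrArg (Ideal.Quotient.mk I.asIdeal) h20
      rwa [map_ofNat, map_zero] at this
    exact CharTwo.of_one_ne_zero_of_two_eq_zero one_ne_zero h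
  let e : E ≃+* ∀ I : MaximalSpectrum E, E ⧸ I.asIdeal := IsArtinianRing.equivPi E
  haveI : Fintype (MaximalSpectrum E) := Fintype.ofFinite _
  let eu : (∀ I : MaximalSpectrum E, E ⧸ I.asIdeal)ˣ →* Eˣ := Units.map (e.symm : _ →* _)
  have euv : ∀ u, ((eu u : Eˣ) : E) = e.symm (u : ∀ I : MaximalSpectrum E, E ⧸ I.asIdeal) :=
    fun u => rfl
  have eui : ∀ u, (((eu u)⁻¹ : Eˣ) : E) =
      e.symm ((u⁻¹ : (∀ I : MaximalSpectrum E, E ⧸ I.asIdeal)ˣ) : _) := fun u => rfl
  obtain ⟨φ, hφu, hφv⟩ := stein_pi (K := fun I : MaximalSpectrum E => E ⧸ I.asIdeal)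
    (fun x => U (e.symm x)) (fun x => V (e.symm x))
    (fun x y => by rw [map_add, hU]) (fun x y => by rw [map_add, hV])
    (fun u x => by
      have := hw (eu u) (e.symm x)
      rw [euv, eui, ← map_mul, ← map_mul] at this
      exact this)
    (fun x y h => horth _ _ (by rw [← map_mul, h, map_zero]))
    (fun u k l => by
      have := hH (eu u) k l
      rw [← map_pow, ← map_pow, euv, eui, euv, eui] at this
      rw [map_one]
      exact this)
  let E' : SpecialLinearGroup (Fin 2) E →*
      SpecialLinearGroup (Fin 2) (∀ I : MaximalSpectrum E, E ⧸ I.asIdeal) :=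
    SpecialLinearGroup.map (e : E →+* _)
  refine ⟨φ.comp E', fun x => ?_, fun x => ?_⟩
  · have h : E' (uu x) = uu (e x) := by
      apply sl2_ext
      · exact map_one e
      · rfl
      · exact map_zero e
      · exact map_one e
    rw [MonoidHom.comp_apply, h, hφu, RingEquiv.symm_apply_apply]
  · have h : E' (vv x) = vv (e x) := by
      apply sl2_ext
      · exact map_one e
      · exact map_zero e
      · rfl
      · exact map_one e
    rw [MonoidHom.comp_apply, h, hφv, RingEquiv.symm_apply_apply]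

end Pool.Agent.Helper97.YG
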